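import Pool.Agent.H74.Fan.Conv

/-!
For every `k ≥ 5` there is a submodular function on `{0,1}^k`, expressible by binary submodular
functions, which is not in the cone of fans.
-/

namespace Pool.Agent.Results.MP_09575c_lc.FanConeFails

open Pool.Agent.H74.Fan

/-- For every `k ≥ 5` there is a submodular function on `{0,1}^k`, expressible by binary submodular
functions, which is not a finite nonnegative combination of fans plus a real constant. -/
theorem result (k : ℕ) (hk : 5 ≤ k) : ∃ f : (Fin k → Bool) → ℝ,
    Submodular f ∧ Expressible f ∧ ¬ InFanCone f := main k hk

end Pool.Agent.Results.MP_09575c_lc.FanConeFails
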